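import Pool.Agent.AltSig37.All

/-!
MP_d358e4_nt (helper37). `sp p r = p^r - p^(r-1) + ... + (-1)^r` and `sig n`, the product of
`sp p r` over the prime powers `p^r` exactly dividing `n`, are defined in
`Pool/Agent/AltSig37/Sig.lean`.
-/

set_option autoImplicit false

namespace Pool.Agent.Results.MP_d358e4_nt.ExponentConditions

open Pool.Agent.AltSig37

theorem result (n : ℕ) (hn : Odd n) (h : (n : ℤ) = 3 * sig n) :
    (∃ p : ℕ, p.Prime ∧ p ∣ n ∧ p % 3 = 2 ∧ 3 ∣ n.factorization p + 1) ∧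
    (∃ q : ℕ, q.Prime ∧ q ∣ n ∧ ∃ l : ℕ, l.Prime ∧ 5 ≤ l ∧ l ∣ n.factorization q + 1) ∧
    Odd (n.primeFactors.filter fun p => p % 4 = 3 ∧ n.factorization p % 4 = 2).card ∧
    ¬ ∃ m : ℕ, n = m ^ 4 := by
  obtain ⟨p, hp, hpn, hp2, hp3⟩ := exists_two_mod_three hn h
  exact ⟨⟨p, hp, hpn, hp2, hp3⟩, exists_five hn h hp hpn hp2, card_odd hn h,
    not_fourth hn h⟩

end Pool.Agent.Results.MP_d358e4_nt.ExponentConditions
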