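import Pool.Agent.AltSig37.All
import Pool.Agent.H65.AltB37

/-!
MP_d358e4_nt (helper37). `sp p r = p^r - p^(r-1) + ... + (-1)^r` and `sig n`, the product of
`sp p r` over the prime powers `p^r` exactly dividing `n`, are defined in
`Pool/Agent/AltSig37/Sig.lean`.
-/

set_option autoImplicit false

namespace Pool.Agent.Results.MP_d358e4_nt.ExponentsDetermine

open Pool.Agent.AltSig37

open Classical in
theorem ncard_eq (P : ℕ → Prop) (x : ℕ) : ({n | P n ∧ n ≤ x} : Set ℕ).ncard =
    ((Finset.range (x + 1)).filter fun n => P n).card := by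
  rw [← Set.ncard_coe_finset]
  congr 1
  ext n
  simp only [Set.mem_ofPred_eq, Finset.coe_filter, Finset.mem_range]
  constructor
  · rintro ⟨h1, h2⟩
    exact ⟨by omega, h1⟩
  · rintro ⟨h1, h2⟩
    exact ⟨h2, by omega⟩

theorem result :
    (∀ K : ℕ, ∃ E : ℕ → List ℕ,
      (∀ n, OddSol K n → (E n).Perm (n.primeFactors.toList.map n.factorization)) ∧
      ∀ m n, OddSol K m → OddSol K n → E m = E n → m = n) ∧
    (∀ K m n c : ℕ, OddSol K m → OddSol K n → m.primeFactors.card = n.primeFactors.card →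
      (∀ p ∈ m.primeFactors, m.factorization p = c) →
      (∀ p ∈ n.primeFactors, n.factorization p = c) → m = n) ∧
    (∀ K x : ℕ, ({n | OddSol K n ∧ n ≤ x} : Set ℕ).ncard ≤ 2 ^ Nat.log 9 x) ∧
    (∀ ε : ℝ, 0 < ε → ∃ C : ℝ, ∀ x : ℕ,
      (({n | (Odd n ∧ sig n ∣ (n : ℤ)) ∧ n ≤ x} : Set ℕ).ncard : ℝ) ≤ C * (x : ℝ) ^ ε) ∧
    (∀ n : ℕ, Odd n → sig n ∣ (n : ℤ) → n < 2 ^ 4 ^ n.primeFactors.card) := by
  have key : ∀ K : ℕ, ∃ E : ℕ → List ℕ,
      (∀ n, OddSol K n → (E n).Perm (n.primeFactors.toList.map n.factorization)) ∧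
      ∀ m n, OddSol K m → OddSol K n → E m = E n → m = n := by
    intro K
    refine ⟨fun n => ex n K n, fun n hn => ?_, fun m n hm hn h => ?_⟩
    · have h1 := ex_perm n K n hn.sol le_rfl
      rw [← Multiset.coe_eq_coe, h1, ← Multiset.map_coe, Finset.coe_toList]
    · have h1 : ex m K m = ex n K n := h
      rw [ex_stab m (max m n) K m hm.sol le_rfl (le_max_left _ _),
        ex_stab n (max m n) K n hn.sol le_rfl (le_max_right _ _)] at h1
      exact ex_inj (max m n) K m n hm.sol hn.sol (le_max_left _ _) (le_max_right _ _) h1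
  refine ⟨key, ?_, ?_, ?_, ?_⟩
  · intro K m n c hm hn hcard hmc hnc
    obtain ⟨E, hE1, hE2⟩ := key K
    have hrep : ∀ k : ℕ, OddSol K k → (∀ p ∈ k.primeFactors, k.factorization p = c) →
        E k = List.replicate k.primeFactors.card c := by
      intro k hk hkc
      have h1 : k.primeFactors.toList.map k.factorization =
          List.replicate k.primeFactors.card c := by
        rw [List.eq_replicate_iff]
        refine ⟨by rw [List.length_map, Finset.length_toList], fun a ha => ?_⟩
        obtain ⟨p, hp, rfl⟩ := List.mem_map.1 ha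
        exact hkc p (Finset.mem_toList.1 hp)
      exact List.perm_replicate.1 (h1 ▸ hE1 k hk)
    exact hE2 m n hm hn (by rw [hrep m hm hmc, hrep n hn hnc, hcard])
  · intro K x
    classical
    rw [ncard_eq]
    refine count_log K x _ fun b hb => ?_
    obtain ⟨h1, h2⟩ := Finset.mem_filter.1 hb
    exact ⟨h2.sol, by have := Finset.mem_range.1 h1; omega⟩
  · intro ε hε
    obtain ⟨C, hC⟩ := count_all ε hε
    refine ⟨C, fun x => ?_⟩
    classical
    rw [ncard_eq]
    refine hC x _ fun b hb => ?_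
    obtain ⟨h1, h2⟩ := (@Finset.mem_filter _ _ (_) _ _).1 hb
    exact ⟨h2, by have := Finset.mem_range.1 h1; omega⟩
  · intro n hn h
    exact Pool.Agent.H65.AltB37.bound_dvd n hn h

end Pool.Agent.Results.MP_d358e4_nt.ExponentsDetermine
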